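import Mathlib

/-!
# The dominating number and the ultrafilter number: partition and splitting lemmas

The lemmas are those of the starting file on this problem.
-/

set_option autoImplicit false

open Cardinal Set

namespace Pool.Agent.Y722.PD

/-- `g ≤* f`: `g n ≤ f n` for all but finitely many `n`. -/
def LeStar (g f : ℕ → ℕ) : Prop := {n | ¬ g n ≤ f n}.Finite

/-- A dominating family: every `g` is `≤*` some member. -/
def IsDominating (F : Set (ℕ → ℕ)) : Prop := ∀ g : ℕ → ℕ, ∃ f ∈ F, LeStar g f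

/-- The dominating number `𝔡`. -/
noncomputable def dominatingNumber : Cardinal.{0} :=
  sInf {κ | ∃ F : Set (ℕ → ℕ), IsDominating F ∧ #F = κ}

/-- `B` is a base of the ultrafilter `U`: `B ⊆ U` and every member of `U` contains a member
of `B`. -/
def IsBase (B : Set (Set ℕ)) (U : Ultrafilter ℕ) : Prop :=
  (∀ b ∈ B, b ∈ U) ∧ ∀ X ∈ U, ∃ b ∈ B, b ⊆ X

/-- The ultrafilter number `𝔲`: the least cardinality of a base of a nonprincipal ultrafilter
on `ω`. -/
noncomputable def ultrafilterNumber : Cardinal.{0} :=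
  sInf {κ | ∃ (U : Ultrafilter ℕ) (B : Set (Set ℕ)),
    (∀ n : ℕ, ({n} : Set ℕ) ∉ U) ∧ IsBase B U ∧ #B = κ}

/-- The strong polarized relation `(lam, ω) → (lam, ω)^{1,1}_m`: for every colouring of `L × ω`, where
`L` is any set of cardinality `lam`, with `m` colours there are `A ⊆ L` of cardinality `lam` and an
infinite `B ⊆ ω` such that the colouring is constant on `A × B`. -/
def Polarized (lam : Cardinal.{0}) (m : ℕ) : Prop :=
  ∀ L : Type, #L = lam → ∀ c : L → ℕ → Fin m,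
    ∃ (A : Set L) (B : Set ℕ), #A = lam ∧ B.Infinite ∧ ∃ i : Fin m, ∀ a ∈ A, ∀ n ∈ B, c a n = i

lemma exists_dominating : ∃ F : Set (ℕ → ℕ), IsDominating F ∧ #F = dominatingNumber := by
  have h : dominatingNumber ∈ {κ | ∃ F : Set (ℕ → ℕ), IsDominating F ∧ #F = κ} :=
    csInf_mem ⟨_, Set.univ, fun g => ⟨g, Set.mem_univ _, by simp [LeStar]⟩, rfl⟩
  exact h

lemma dominatingNumber_le {F : Set (ℕ → ℕ)} (hF : IsDominating F) : dominatingNumber ≤ #F :=
  csInf_le' ⟨F, hF, rfl⟩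

lemma ultrafilterNumber_le {U : Ultrafilter ℕ} {B : Set (Set ℕ)}
    (h1 : ∀ n : ℕ, ({n} : Set ℕ) ∉ U) (h2 : IsBase B U) : ultrafilterNumber ≤ #B :=
  csInf_le' ⟨U, B, h1, h2, rfl⟩

/-- Sanity check: nonprincipal ultrafilters exist, so `𝔲` is the size of some base. -/
lemma exists_base : ∃ (U : Ultrafilter ℕ) (B : Set (Set ℕ)),
    (∀ n : ℕ, ({n} : Set ℕ) ∉ U) ∧ IsBase B U ∧ #B = ultrafilterNumber := by
  have h : ultrafilterNumber ∈ {κ | ∃ (U : Ultrafilter ℕ) (B : Set (Set ℕ)),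
      (∀ n : ℕ, ({n} : Set ℕ) ∉ U) ∧ IsBase B U ∧ #B = κ} :=
    csInf_mem ⟨_, Filter.hyperfilter ℕ, {X | X ∈ Filter.hyperfilter ℕ},
      fun n => Filter.notMem_hyperfilter_of_finite (Set.finite_singleton n),
      ⟨fun _ h => h, fun X hX => ⟨X, hX, Subset.rfl⟩⟩, rfl⟩
  exact h

/-- A family indexed by fewer than `𝔡` indices is not dominating. -/
lemma not_dominated {ι : Type} (hι : #ι < dominatingNumber) (g : ι → ℕ → ℕ) :
    ∃ h : ℕ → ℕ, ∀ i, {n | g i n < h n}.Infinite := by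
  by_contra hcon
  push Not at hcon
  have hdom : IsDominating (Set.range g) := by
    intro h
    obtain ⟨i, hi⟩ := hcon h
    refine ⟨g i, ⟨i, rfl⟩, ?_⟩
    simpa [LeStar] using hi
  exact absurd ((dominatingNumber_le hdom).trans Cardinal.mk_range_le) (not_le.2 hι)

lemma aleph0_lt_dominatingNumber : ℵ₀ < dominatingNumber := by
  by_contra hcon
  obtain ⟨F, hF, hcard⟩ := exists_dominating
  have hc : F.Countable := by
    rw [← Cardinal.le_aleph0_iff_set_countable, hcard]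
    exact not_lt.1 hcon
  have hne : F.Nonempty := by
    obtain ⟨f, hf, _⟩ := hF id
    exact ⟨f, hf⟩
  obtain ⟨e, he⟩ := hc.exists_eq_range hne
  obtain ⟨f, hf, hle⟩ := hF (fun n => 1 + ∑ j ∈ Finset.range (n + 1), e j n)
  rw [he] at hf
  obtain ⟨j, rfl⟩ := hf
  have hinf : {n | ¬ (1 + ∑ j ∈ Finset.range (n + 1), e j n) ≤ e j n}.Infinite := by
    refine (Set.infinite_of_not_bddAbove ?_).mono (s := Set.Ici j) ?_
    · rw [not_bddAbove_iff]
      exact fun x => ⟨max j (x + 1), by simp, by omega⟩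
    · intro n hn
      have hn' : j ≤ n := hn
      have : e j n ≤ ∑ j ∈ Finset.range (n + 1), e j n :=
        Finset.single_le_sum (f := fun j => e j n) (fun _ _ => Nat.zero_le _)
          (Finset.mem_range.2 (by omega))
      rw [Set.mem_ofPred_eq, not_le]
      omega
  exact hinf hle

/-- Partition lemma: for fewer than `𝔡` functions `g i` there is an interval
partition such that, for each `i`, infinitely many of its intervals contain some `[k, g i k)`. -/
lemma exists_partition {ι : Type} (hι : #ι < dominatingNumber) (g : ι → ℕ → ℕ) :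
    ∃ q : ℕ → ℕ, StrictMono q ∧ q 0 = 0 ∧
      ∀ i, {n | ∃ k, q n ≤ k ∧ g i k ≤ q (n + 1)}.Infinite := by
  obtain ⟨h, hh⟩ := not_dominated hι (fun i k => g i (g i k))
  let H : ℕ → ℕ := fun k => (∑ j ∈ Finset.range (k + 1), h j) + k + 1
  have hHgt : ∀ k, k < H k := fun k => by simp only [H]; omega
  have hHmono : Monotone H := by
    intro a b hab
    have : ∑ j ∈ Finset.range (a + 1), h j ≤ ∑ j ∈ Finset.range (b + 1), h j :=
      Finset.sum_le_sum_of_subset (Finset.range_mono (by omega))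
    simp only [H]; omega
  have hHh : ∀ k, h k ≤ H k := fun k => by
    have : h k ≤ ∑ j ∈ Finset.range (k + 1), h j :=
      Finset.single_le_sum (f := h) (fun _ _ => Nat.zero_le _) (Finset.mem_range.2 (by omega))
    simp only [H]; omega
  let q : ℕ → ℕ := fun n => Nat.rec 0 (fun _ r => H r) n
  have hq1 : ∀ n, q (n + 1) = H (q n) := fun n => rfl
  have hqmono : StrictMono q := strictMono_nat_of_lt_succ (fun n => by rw [hq1]; exact hHgt _)
  refine ⟨q, hqmono, rfl, fun i => ?_⟩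
  rw [Set.infinite_iff_exists_gt]
  intro N
  obtain ⟨k, hk, hkN⟩ := (Set.infinite_iff_exists_gt.1 (hh i)) (q (N + 1))
  -- the interval containing k
  have hex : ∃ n, k < q (n + 1) := ⟨k, (Nat.lt_succ_self k).trans_le (hqmono.le_apply)⟩
  classical
  set n := Nat.find hex with hn
  have hn1 : k < q (n + 1) := Nat.find_spec hex
  have hn2 : q n ≤ k := by
    rcases Nat.eq_zero_or_pos n with h0 | h0
    · rw [h0]; exact Nat.zero_le _
    · have := Nat.find_min hex (m := n - 1) (by omega)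
      rw [show n - 1 + 1 = n by omega] at this
      omega
  have hnN : N < n := by
    by_contra hcon
    have : q (n + 1) ≤ q (N + 1) := hqmono.monotone (show n + 1 ≤ N + 1 by omega)
    omega
  have h2 : g i (g i k) < q (n + 1 + 1) := by
    have h3 : g i (g i k) < h k := hk
    have h4 : H k ≤ q (n + 1 + 1) := by rw [hq1 (n + 1)]; exact hHmono hn1.le
    have := hHh k
    omega
  rcases le_or_gt (g i k) (q (n + 1)) with h5 | h5
  · exact ⟨n, ⟨k, hn2, h5⟩, hnN⟩
  · exact ⟨n + 1, ⟨g i k, h5.le, h2.le⟩, by omega⟩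

/-- The index of the interval `[q n, q (n+1))` containing `x`. -/
lemma exists_index {q : ℕ → ℕ} (hq : StrictMono q) :
    ∃ idx : ℕ → ℕ, ∀ n x, q n ≤ x → x < q (n + 1) → idx x = n := by
  classical
  have hex : ∀ x, ∃ n, x < q (n + 1) := fun x =>
    ⟨x, (Nat.lt_succ_self x).trans_le (hq.le_apply)⟩
  refine ⟨fun x => Nat.find (hex x), fun n x h1 h2 => ?_⟩
  have h3 : Nat.find (hex x) ≤ n := Nat.find_le h2
  by_contra hne
  have h4 : Nat.find (hex x) < n := lt_of_le_of_ne h3 hne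
  have h5 : x < q (Nat.find (hex x) + 1) := Nat.find_spec (hex x)
  have h6 : q (Nat.find (hex x) + 1) ≤ q n := hq.monotone (by omega)
  omega

/-- If `𝔡 ≤ 𝔲` then fewer than `𝔡` infinite sets can be split simultaneously (that is,
`𝔡 ≤ 𝔯`). -/
lemma exists_split (hdu : dominatingNumber ≤ ultrafilterNumber) {ι : Type}
    (hι : #ι < dominatingNumber) (A : ι → Set ℕ) (hA : ∀ i, (A i).Infinite) :
    ∃ S : Set ℕ, ∀ i, (A i ∩ S).Infinite ∧ (A i \ S).Infinite := by
  classical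
  by_contra hcon
  push Not at hcon
  have hreap : ∀ S : Set ℕ, ∃ i, (A i ∩ S).Finite ∨ (A i \ S).Finite := by
    intro S
    obtain ⟨i, hi⟩ := hcon S
    refine ⟨i, ?_⟩
    by_cases h : (A i ∩ S).Infinite
    · exact Or.inr (by simpa using hi h)
    · exact Or.inl (by simpa using h)
  -- next function for a finite subfamily
  have hnext : ∀ (F : Finset ι) (k : ℕ), ∃ m, k < m ∧ ∀ i ∈ F, ∃ x ∈ A i, k ≤ x ∧ x < m := by
    intro F k
    have hx : ∀ i, ∃ x ∈ A i, k < x := fun i => (Set.infinite_iff_exists_gt.1 (hA i)) k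
    choose x hx1 hx2 using hx
    refine ⟨k + 1 + ∑ i ∈ F, (x i + 1), by omega, fun i hi => ⟨x i, hx1 i, (hx2 i).le, ?_⟩⟩
    have : x i + 1 ≤ ∑ i ∈ F, (x i + 1) :=
      Finset.single_le_sum (f := fun i => x i + 1) (fun _ _ => Nat.zero_le _) hi
    omega
  choose g hg1 hg2 using hnext
  have hfin : #(Finset ι) < dominatingNumber := by
    rcases finite_or_infinite ι with h | h
    · exact (Cardinal.mk_le_aleph0).trans_lt aleph0_lt_dominatingNumber
    · rw [Cardinal.mk_finset_of_infinite]; exact hι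
  obtain ⟨q, hq, hq0, hqg⟩ := exists_partition hfin g
  obtain ⟨idx, hidx⟩ := exists_index hq
  let Bs : ι → Set ℕ := fun i => {n | ∃ x ∈ A i, q n ≤ x ∧ x < q (n + 1)}
  let 𝓑 : Finset ι × ℕ → Set ℕ := fun p => {n | p.2 ≤ n ∧ ∀ i ∈ p.1, n ∈ Bs i}
  have h𝓑inf : ∀ p, (𝓑 p).Infinite := by
    intro p
    have h1 := hqg p.1
    rw [Set.infinite_iff_exists_gt] at h1 ⊢
    intro N
    obtain ⟨n, ⟨k, hk1, hk2⟩, hn⟩ := h1 (max N p.2)
    refine ⟨n, ⟨by omega, fun i hi => ?_⟩, by omega⟩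
    obtain ⟨x, hx1, hx2, hx3⟩ := hg2 p.1 k i hi
    exact ⟨x, hx1, by omega, by omega⟩
  let 𝓕 : Filter ℕ :=
    { sets := {X | ∃ p, 𝓑 p ⊆ X}
      univ_sets := ⟨(∅, 0), Set.subset_univ _⟩
      sets_of_superset := by
        rintro X Y ⟨p, hp⟩ hXY
        exact ⟨p, hp.trans hXY⟩
      inter_sets := by
        rintro X Y ⟨p, hp⟩ ⟨p', hp'⟩
        refine ⟨(p.1 ∪ p'.1, max p.2 p'.2), ?_⟩
        rintro n ⟨h1, h2⟩
        have h1' : max p.2 p'.2 ≤ n := h1
        refine ⟨hp ⟨by omega, fun i hi => h2 i (Finset.mem_union_left _ hi)⟩,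
          hp' ⟨by omega, fun i hi => h2 i (Finset.mem_union_right _ hi)⟩⟩ }
  have hmem : ∀ X, X ∈ 𝓕 ↔ ∃ p, 𝓑 p ⊆ X := fun X => Iff.rfl
  have hdich : ∀ s : Set ℕ, s ∈ 𝓕 ∨ sᶜ ∈ 𝓕 := by
    intro s
    obtain ⟨i, hi⟩ := hreap {x | idx x ∈ s}
    rcases hi with hi | hi
    · right
      obtain ⟨b, hb⟩ := hi.bddAbove
      refine (hmem _).2 ⟨({i}, b + 1), ?_⟩
      rintro n ⟨h1, h2⟩ hns
      obtain ⟨x, hx1, hx2, hx3⟩ := h2 i (Finset.mem_singleton_self i)
      have h3 : idx x = n := hidx n x hx2 hx3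
      have h4 : x ≤ b := hb ⟨hx1, by simpa [h3] using hns⟩
      have h5 : n ≤ q n := hq.le_apply
      have h1' : b + 1 ≤ n := h1
      omega
    · left
      obtain ⟨b, hb⟩ := hi.bddAbove
      refine (hmem _).2 ⟨({i}, b + 1), ?_⟩
      rintro n ⟨h1, h2⟩
      by_contra hns
      obtain ⟨x, hx1, hx2, hx3⟩ := h2 i (Finset.mem_singleton_self i)
      have h3 : idx x = n := hidx n x hx2 hx3
      have h4 : x ≤ b := hb ⟨hx1, by simpa [h3] using hns⟩
      have h5 : n ≤ q n := hq.le_apply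
      have h1' : b + 1 ≤ n := h1
      omega
  have hnotboth : ∀ s : Set ℕ, s ∈ 𝓕 → sᶜ ∈ 𝓕 → False := by
    intro s h1 h2
    have h3 : (∅ : Set ℕ) ∈ 𝓕 := by
      have := Filter.inter_mem h1 h2
      simpa using this
    obtain ⟨p, hp⟩ := (hmem _).1 h3
    exact h𝓑inf p ((Set.finite_empty).subset hp)
  let U : Ultrafilter ℕ := Ultrafilter.ofComplNotMemIff 𝓕 (fun s =>
    ⟨fun h => (hdich s).resolve_right h, fun h h' => hnotboth s h h'⟩)
  have hUmem : ∀ X, X ∈ U ↔ ∃ p, 𝓑 p ⊆ X := fun X => Iff.rfl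
  have hprin : ∀ n : ℕ, ({n} : Set ℕ) ∉ U := by
    intro n hn
    obtain ⟨p, hp⟩ := (hUmem _).1 hn
    exact h𝓑inf p ((Set.finite_singleton n).subset hp)
  have hbase : IsBase (Set.range 𝓑) U := by
    refine ⟨?_, ?_⟩
    · rintro _ ⟨p, rfl⟩
      exact (hUmem _).2 ⟨p, Subset.rfl⟩
    · intro X hX
      obtain ⟨p, hp⟩ := (hUmem _).1 hX
      exact ⟨_, ⟨p, rfl⟩, hp⟩
  have hcard : #(Set.range 𝓑) < dominatingNumber := by
    refine Cardinal.mk_range_le.trans_lt ?_
    rw [Cardinal.mk_prod]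
    simp only [Cardinal.lift_id]
    exact Cardinal.mul_lt_of_lt aleph0_lt_dominatingNumber.le hfin
      (by simpa using aleph0_lt_dominatingNumber)
  exact absurd (hdu.trans (ultrafilterNumber_le hprin hbase)) (not_le.2 hcard)


end Pool.Agent.Y722.PD
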