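import Pool.Agent.Y722.PD.Base

/-!
# Colourings of `𝔡 × ω` with `ω` colours, transfer between cofinalities, and the converse
-/

set_option autoImplicit false

open Cardinal Set

namespace Pool.Agent.Y722.PD

/-- If `𝔡 ≤ 𝔲`, fewer than `𝔡` infinite sets can be split simultaneously into `ω` infinite pieces. -/
lemma exists_split_omega (hdu : dominatingNumber ≤ ultrafilterNumber) {ι : Type}
    (hι : #ι < dominatingNumber) (A : ι → Set ℕ) (hA : ∀ i, (A i).Infinite) :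
    ∃ s : ℕ → ℕ, ∀ i j, {n | n ∈ A i ∧ s n = j}.Infinite := by
  classical
  have step : ∀ R : {R : Set ℕ // ∀ i, (A i ∩ R).Infinite},
      ∃ R' : {R : Set ℕ // ∀ i, (A i ∩ R).Infinite},
        (R' : Set ℕ) ⊆ R ∧ ∀ i, (A i ∩ ((R : Set ℕ) \ R')).Infinite := by
    rintro ⟨R, hR⟩
    obtain ⟨S, hS⟩ := exists_split hdu hι (fun i => A i ∩ R) hR
    refine ⟨⟨R ∩ S, fun i => ?_⟩, Set.inter_subset_left, fun i => ?_⟩
    · have := (hS i).1
      rwa [Set.inter_assoc] at this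
    · refine (hS i).2.mono ?_
      rintro n ⟨⟨h1, h2⟩, h3⟩
      exact ⟨h1, h2, fun h => h3 h.2⟩
  choose nxt hn1 hn2 using step
  let R : ℕ → {R : Set ℕ // ∀ i, (A i ∩ R).Infinite} :=
    fun k => Nat.rec ⟨Set.univ, by simpa using hA⟩ (fun _ r => nxt r) k
  have hRs : ∀ k, R (k + 1) = nxt (R k) := fun k => rfl
  have hanti : Antitone (fun k => ((R k).1 : Set ℕ)) :=
    antitone_nat_of_succ_le (fun k => hn1 (R k))
  refine ⟨fun n => if h : ∃ k, n ∉ (R (k + 1) : Set ℕ) then Nat.find h else 0, fun i j => ?_⟩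
  refine (hn2 (R j) i).mono ?_
  rintro n ⟨h1, h2, h3⟩
  rw [← hRs] at h3
  have hex : ∃ k, n ∉ (R (k + 1) : Set ℕ) := ⟨j, h3⟩
  refine ⟨h1, ?_⟩
  simp only [dif_pos hex]
  refine le_antisymm (Nat.find_le h3) ?_
  by_contra hlt
  push Not at hlt
  exact Nat.find_spec hex (hanti (show Nat.find hex + 1 ≤ j by omega) h2)

/-- If `𝔡 ≤ 𝔲` there is a colouring `c : 𝔡 × ω → ω` such that for every infinite `B ⊆ ω` there is
`b < 𝔡` such that for all `a > b` the row `c a` takes every value infinitely often on `B`. -/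
theorem exists_colouring_omega (hdu : dominatingNumber ≤ ultrafilterNumber) :
    ∃ c : dominatingNumber.ord.ToType → ℕ → ℕ, ∀ B : Set ℕ, B.Infinite →
      ∃ b, ∀ a, b < a → ∀ j, {x | x ∈ B ∧ c a x = j}.Infinite := by
  classical
  obtain ⟨F, hF, hcard⟩ := exists_dominating
  have hLF : #(dominatingNumber.ord.ToType) = #F := by
    rw [hcard]; simp
  obtain ⟨e⟩ := Cardinal.eq.1 hLF
  let g : dominatingNumber.ord.ToType → ℕ → ℕ := fun a k => max ((e a : ℕ → ℕ) k) (k + 1)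
  have hseg : ∀ a : dominatingNumber.ord.ToType, #(Set.Iio a) < dominatingNumber := by
    intro a
    exact Cardinal.mk_Iio_toType_ord_lt a
  have h1 : ∀ a : dominatingNumber.ord.ToType, ∃ q : ℕ → ℕ, StrictMono q ∧ q 0 = 0 ∧
      ∀ i : Set.Iio a, {n | ∃ k, q n ≤ k ∧ g i k ≤ q (n + 1)}.Infinite := fun a =>
    exists_partition (hseg a) (fun i : Set.Iio a => g i)
  choose q hq hq0 hqX using h1
  have h2 : ∀ a : dominatingNumber.ord.ToType, ∃ s : ℕ → ℕ, ∀ (i : Set.Iio a) (j : ℕ),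
      {n | n ∈ {n | ∃ k, q a n ≤ k ∧ g i k ≤ q a (n + 1)} ∧ s n = j}.Infinite := fun a =>
    exists_split_omega hdu (hseg a)
      (fun i : Set.Iio a => {n | ∃ k, q a n ≤ k ∧ g i k ≤ q a (n + 1)}) (fun i => hqX a i)
  choose s hs using h2
  have h3 : ∀ a, ∃ idx : ℕ → ℕ, ∀ n x, q a n ≤ x → x < q a (n + 1) → idx x = n := fun a =>
    exists_index (hq a)
  choose idx hidx using h3
  refine ⟨fun a x => s a (idx a x), fun B hB => ?_⟩
  -- the next-element function of B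
  have hnx : ∀ k, ∃ x ∈ B, k < x := fun k => (Set.infinite_iff_exists_gt.1 hB) k
  choose nx hnx1 hnx2 using hnx
  obtain ⟨f, hf, hle⟩ := hF (fun k => nx k + 1)
  obtain ⟨b, hb⟩ := e.surjective ⟨f, hf⟩
  obtain ⟨K, hK⟩ := hle.bddAbove
  refine ⟨b, fun a hba j => ?_⟩
  have key : ∀ n, K < n → (∃ k, q a n ≤ k ∧ g b k ≤ q a (n + 1)) →
      ∃ x ∈ B, idx a x = n := by
    rintro n hn ⟨k, hk1, hk2⟩
    have h5 : n ≤ q a n := (hq a).le_apply
    have h6 : nx k + 1 ≤ f k := by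
      by_contra hcon
      have : k ≤ K := hK hcon
      omega
    have h7 : f k ≤ g b k := by
      simp only [g, hb]
      exact le_max_left _ _
    have h8 := hnx2 k
    exact ⟨nx k, hnx1 k, hidx a n (nx k) (by omega) (by omega)⟩
  intro hfin
  refine (hs a ⟨b, hba⟩ j) (((Set.finite_Iic K).union (hfin.image (idx a))).subset ?_)
  rintro n ⟨hn1, hn2⟩
  rcases le_or_gt n K with h | h
  · exact Or.inl h
  · obtain ⟨x, hxB, hx⟩ := key n h hn1
    exact Or.inr ⟨x, ⟨hxB, by simp only [hx]; exact hn2⟩, hx⟩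

lemma mk_Iic_lt {μ : Cardinal.{0}} (hμ : ℵ₀ ≤ μ) (i : μ.ord.ToType) : #(Set.Iic i) < μ := by
  have h1 : (Set.Iic i) ⊆ insert i (Set.Iio i) := by
    intro a ha
    rcases (show a ≤ i from ha).eq_or_lt with h | h
    · exact Or.inl h
    · exact Or.inr h
  refine ((Cardinal.mk_le_mk_of_subset h1).trans Cardinal.mk_insert_le).trans_lt ?_
  exact Cardinal.add_lt_of_lt hμ (Cardinal.mk_Iio_toType_ord_lt i) (Cardinal.one_lt_aleph0.trans_le hμ)

/-- A set of fewer than `cof` elements is strictly bounded. -/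
lemma exists_bound {ν : Cardinal.{0}} {S : Set ν.ord.ToType} (hS : #S < ν.ord.cof) :
    ∃ b, ∀ x ∈ S, x < b := by
  by_contra hcon
  push Not at hcon
  have h : IsCofinal S := fun b => by
    obtain ⟨x, hx, hb⟩ := hcon b
    exact ⟨x, hx, hb⟩
  have h2 := Order.cof_le h
  rw [Ordinal.cof_toType] at h2
  exact absurd h2 (not_le.2 hS)

/-- Two cardinals of the same infinite cofinality: a map whose initial preimages are small. -/
lemma exists_rho {κ ν : Cardinal.{0}} (h : κ.ord.cof = ν.ord.cof) (hν : ℵ₀ ≤ ν.ord.cof) :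
    ∃ ρ : κ.ord.ToType → ν.ord.ToType, ∀ b, #{x | ρ x ≤ b} < κ := by
  classical
  obtain ⟨E, hE, hEc⟩ := Order.exists_cof_eq κ.ord.ToType
  obtain ⟨D, hD, hDc⟩ := Order.exists_cof_eq ν.ord.ToType
  rw [Ordinal.cof_toType] at hEc hDc
  set μ := ν.ord.cof with hμ
  obtain ⟨φ⟩ := Cardinal.eq.1 (show #(μ.ord.ToType) = #E by rw [hEc, h]; simp)
  obtain ⟨ψ⟩ := Cardinal.eq.1 (show #(μ.ord.ToType) = #D by rw [hDc]; simp)
  have hex : ∀ x : κ.ord.ToType, ∃ i, x ≤ (φ i : κ.ord.ToType) := fun x => by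
    obtain ⟨y, hy, hxy⟩ := hE x
    obtain ⟨i, hi⟩ := φ.surjective ⟨y, hy⟩
    exact ⟨i, by rw [hi]; exact hxy⟩
  choose ix hix using hex
  have hup : ∀ i : μ.ord.ToType, ∃ b : ν.ord.ToType, ∀ j ≤ i, (ψ j : ν.ord.ToType) < b := by
    intro i
    obtain ⟨b, hb⟩ := exists_bound (ν := ν) (S := (fun j => (ψ j : ν.ord.ToType)) '' Set.Iic i)
      (Cardinal.mk_image_le.trans_lt (mk_Iic_lt hν i))
    exact ⟨b, fun j hj => hb _ ⟨j, hj, rfl⟩⟩
  choose up hup using hup
  refine ⟨fun x => up (ix x), fun b => ?_⟩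
  obtain ⟨y, hy, hby⟩ := hD b
  obtain ⟨j, hj⟩ := ψ.surjective ⟨y, hy⟩
  obtain ⟨a, ha⟩ := exists_bound (ν := κ) (S := (fun j => (φ j : κ.ord.ToType)) '' Set.Iio j)
    (by rw [h]; exact Cardinal.mk_image_le.trans_lt (Cardinal.mk_Iio_toType_ord_lt j))
  refine (Cardinal.mk_le_mk_of_subset ?_).trans_lt (Cardinal.mk_Iio_toType_ord_lt a)
  intro x hx
  have hx' : up (ix x) ≤ b := hx
  have h1 : ix x < j := by
    by_contra hcon
    push Not at hcon
    have h2 := hup (ix x) j hcon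
    rw [hj] at h2
    exact absurd (hby.trans_lt h2) (not_lt.2 hx')
  exact (hix x).trans_lt (ha _ ⟨ix x, h1, rfl⟩)

/-- The cofinality of `𝔡` is infinite. -/
lemma aleph0_le_cof : ℵ₀ ≤ dominatingNumber.ord.cof :=
  Ordinal.aleph0_le_cof.2 (Cardinal.isSuccLimit_ord aleph0_lt_dominatingNumber.le)

/-- If `𝔡 ≤ 𝔲`, then for every set `L` whose cardinality `κ` has the cofinality of `𝔡` there is a colouring
`c : L × ω → ω` such that for every infinite `B ⊆ ω` all but fewer than `κ` of the rows take every value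
infinitely often on `B`. -/
theorem negative (hdu : dominatingNumber ≤ ultrafilterNumber) {κ : Cardinal.{0}}
    (hκ : κ.ord.cof = dominatingNumber.ord.cof) {L : Type} (hL : #L = κ) :
    ∃ c : L → ℕ → ℕ, ∀ B : Set ℕ, B.Infinite →
      #{a | ∃ j, {n | n ∈ B ∧ c a n = j}.Finite} < κ := by
  obtain ⟨c, hc⟩ := exists_colouring_omega hdu
  obtain ⟨ρ, hρ⟩ := exists_rho hκ aleph0_le_cof
  obtain ⟨e⟩ := Cardinal.eq.1 (show #L = #(κ.ord.ToType) by rw [hL]; simp)
  refine ⟨fun a n => c (ρ (e a)) n, fun B hB => ?_⟩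
  obtain ⟨b, hb⟩ := hc B hB
  refine lt_of_le_of_lt ?_ (hρ b)
  have h1 : {a : L | ∃ j, {n | n ∈ B ∧ c (ρ (e a)) n = j}.Finite} ⊆ e ⁻¹' {x | ρ x ≤ b} := by
    rintro a ⟨j, hj⟩
    by_contra hcon
    have h2 : b < ρ (e a) := not_le.1 hcon
    exact hb _ h2 j hj
  refine (Cardinal.mk_le_mk_of_subset h1).trans ?_
  exact Cardinal.mk_preimage_of_injective _ _ e.injective

/-- Hence the relation with two or more colours fails. -/
theorem not_polarized (hdu : dominatingNumber ≤ ultrafilterNumber) {κ : Cardinal.{0}}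
    (hκ : κ.ord.cof = dominatingNumber.ord.cof) {m : ℕ} (hm : 2 ≤ m) : ¬ Polarized κ m := by
  intro hrel
  obtain ⟨c, hc⟩ := negative hdu hκ (L := κ.ord.ToType) (by simp)
  obtain ⟨A, B, hA, hB, i, hi⟩ := hrel κ.ord.ToType (by simp)
    (fun a n => if c a n = 0 then ⟨0, by omega⟩ else ⟨1, by omega⟩)
  have h1 := hc B hB
  have h2 : A ⊆ {a | ∃ j, {n | n ∈ B ∧ c a n = j}.Finite} := by
    intro a ha
    by_contra hcon
    have hall : ∀ j, {n | n ∈ B ∧ c a n = j}.Infinite := by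
      intro j hj
      exact hcon ⟨j, hj⟩
    obtain ⟨x, hx, hx'⟩ := (hall 0).nonempty
    obtain ⟨y, hy, hy'⟩ := (hall 1).nonempty
    have e1 := hi a ha x hx
    have e2 := hi a ha y hy
    simp only [hx', hy'] at e1 e2
    have := e1.trans e2.symm
    simp at this
  have h3 := (Cardinal.mk_le_mk_of_subset h2).trans_lt h1
  rw [hA] at h3
  exact absurd h3 (lt_irrefl _)

/-- If `𝔲 < cf κ`, the relation holds with any number of colours. -/
theorem polarized {κ : Cardinal.{0}} (hκ : ultrafilterNumber < κ.ord.cof) (m : ℕ) :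
    Polarized κ m := by
  classical
  obtain ⟨U, B, hU, hB, hc⟩ := exists_base
  obtain ⟨b0, hb0, -⟩ := hB.2 Set.univ Filter.univ_mem
  have h1 : 1 ≤ ultrafilterNumber := by
    rw [← hc, Cardinal.one_le_iff_ne_zero, Cardinal.mk_ne_zero_iff]
    exact ⟨⟨b0, hb0⟩⟩
  have h2 : ℵ₀ ≤ κ.ord.cof := Ordinal.aleph0_le_cof_iff.2 (h1.trans_lt hκ)
  have h3 : ℵ₀ ≤ κ := h2.trans (Ordinal.cof_ord_le κ)
  intro L hL c
  have key : ∀ a : L, ∃ p : Fin m × B, ∀ n ∈ (p.2 : Set ℕ), c a n = p.1 := by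
    intro a
    obtain ⟨i, hi⟩ := (U.map (c a)).eq_pure_of_finite
    have h4 : {n | c a n = i} ∈ U := by
      have h5 : ({i} : Set (Fin m)) ∈ U.map (c a) := by
        rw [hi]; simp
      exact h5
    obtain ⟨b, hb, hb'⟩ := hB.2 _ h4
    exact ⟨(i, ⟨b, hb⟩), fun n hn => hb' hn⟩
  choose p hp using key
  have hcard : #(Fin m × B) < κ.ord.cof := by
    rw [Cardinal.mk_prod]
    simp only [Cardinal.lift_id]
    refine Cardinal.mul_lt_of_lt h2 ?_ (by rw [hc]; exact hκ)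
    exact (Cardinal.lt_aleph0_of_finite _).trans_le h2
  obtain ⟨x, hx⟩ := Cardinal.infinite_pigeonhole_card p κ hL.ge h3 hcard
  refine ⟨p ⁻¹' {x}, x.2, le_antisymm ((Cardinal.mk_set_le _).trans_eq hL) hx, ?_, x.1, ?_⟩
  · intro hfin
    have hmem : (x.2 : Set ℕ) ∈ U := hB.1 _ x.2.2
    obtain ⟨n, hn, hUn⟩ := U.eq_pure_of_finite_mem hfin hmem
    exact hU n (by rw [hUn]; simp)
  · intro a ha n hn
    have ha' : p a = x := ha
    have := hp a n (by rw [ha']; exact hn)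
    rw [this, ha']

end Pool.Agent.Y722.PD
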