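import Pool.Agent.Y722.PD.Omega

/-!
# If `𝔲 < 𝔡` then `𝔡` is regular
-/

set_option autoImplicit false

open Cardinal Set

namespace Pool.Agent.Y722.PD

lemma notMem_of_finite {U : Ultrafilter ℕ} (hU : ∀ n : ℕ, ({n} : Set ℕ) ∉ U) {X : Set ℕ}
    (hX : X.Finite) : X ∉ U := by
  intro h
  obtain ⟨n, -, hn⟩ := U.eq_pure_of_finite_mem hX h
  exact hU n (by rw [hn]; simp)

/-- If `U` has a base of fewer than `𝔡` sets, then fewer than `𝔡` functions are bounded modulo `U`. -/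
lemma exists_above {U : Ultrafilter ℕ} {B : Set (Set ℕ)} (hU : ∀ n : ℕ, ({n} : Set ℕ) ∉ U)
    (hB : IsBase B U) (hc : #B < dominatingNumber) {ι : Type} (hι : #ι < dominatingNumber)
    (f : ι → ℕ → ℕ) : ∃ h : ℕ → ℕ, ∀ i, {n | f i n < h n} ∈ U := by
  have hinf : ∀ b : B, (b : Set ℕ).Infinite := fun b hfin => notMem_of_finite hU hfin (hB.1 _ b.2)
  have hnx : ∀ (b : B) (k : ℕ), ∃ x ∈ (b : Set ℕ), k < x := fun b k =>
    (Set.infinite_iff_exists_gt.1 (hinf b)) k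
  choose nx hnx1 hnx2 using hnx
  have hcard : #(ι × B) < dominatingNumber := by
    rw [Cardinal.mk_prod]
    simp only [Cardinal.lift_id]
    exact Cardinal.mul_lt_of_lt aleph0_lt_dominatingNumber.le hι hc
  obtain ⟨h0, hh0⟩ := not_dominated hcard (fun p n => f p.1 (nx p.2 n))
  have hmono : Monotone (fun n => ∑ j ∈ Finset.range (n + 1), h0 j) := fun a b hab =>
    Finset.sum_le_sum_of_subset (Finset.range_mono (by omega))
  have hge : ∀ n, h0 n ≤ ∑ j ∈ Finset.range (n + 1), h0 j := fun n =>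
    Finset.single_le_sum (f := h0) (fun _ _ => Nat.zero_le _) (Finset.mem_range.2 (by omega))
  refine ⟨fun n => ∑ j ∈ Finset.range (n + 1), h0 j, fun i => ?_⟩
  by_contra hcon
  have h1 : {n | f i n < ∑ j ∈ Finset.range (n + 1), h0 j}ᶜ ∈ U :=
    Ultrafilter.compl_mem_iff_notMem.2 hcon
  obtain ⟨b, hb, hb'⟩ := hB.2 _ h1
  obtain ⟨n, hn⟩ := (hh0 (i, ⟨b, hb⟩)).nonempty
  have h2 : ¬ f i (nx ⟨b, hb⟩ n) < ∑ j ∈ Finset.range (nx ⟨b, hb⟩ n + 1), h0 j :=
    hb' (hnx1 ⟨b, hb⟩ n)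
  have h3 : f i (nx ⟨b, hb⟩ n) < h0 n := hn
  exact h2 ((h3.trans_le (hge n)).trans_le (hmono (hnx2 ⟨b, hb⟩ n).le))

/-- If `𝔲 < 𝔡` then `𝔡` is regular. -/
theorem cof_eq (h : ultrafilterNumber < dominatingNumber) :
    dominatingNumber.ord.cof = dominatingNumber := by
  by_contra hne
  have hlt : dominatingNumber.ord.cof < dominatingNumber :=
    lt_of_le_of_ne (Ordinal.cof_ord_le _) hne
  obtain ⟨U, B, hU, hB, hc⟩ := exists_base
  obtain ⟨F, hF, hcard⟩ := exists_dominating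
  obtain ⟨e⟩ := Cardinal.eq.1 (show #(dominatingNumber.ord.ToType) = #F by rw [hcard]; simp)
  obtain ⟨S, hS, hSc⟩ := Order.exists_cof_eq dominatingNumber.ord.ToType
  rw [Ordinal.cof_toType] at hSc
  have h1 : ∀ s : dominatingNumber.ord.ToType, ∃ g : ℕ → ℕ, ∀ a : Set.Iic s,
      {n | (e a : ℕ → ℕ) n < g n} ∈ U := fun s =>
    exists_above hU hB (by rw [hc]; exact h) (mk_Iic_lt aleph0_lt_dominatingNumber.le s)
      (fun a : Set.Iic s => (e a : ℕ → ℕ))
  choose g hg using h1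
  obtain ⟨G, hG⟩ := exists_above hU hB (by rw [hc]; exact h) (show #S < dominatingNumber by
    rw [hSc]; exact hlt) (fun s : S => g s)
  obtain ⟨f, hf, hle⟩ := hF G
  obtain ⟨a, ha⟩ := e.surjective ⟨f, hf⟩
  obtain ⟨s, hs, has⟩ := hS a
  have h2 := hg s ⟨a, has⟩
  rw [show (e a : ℕ → ℕ) = f by rw [ha]] at h2
  have h3 := hG ⟨s, hs⟩
  have h4 : {n | ¬ G n ≤ f n}ᶜ ∈ U := Ultrafilter.compl_mem_iff_notMem.2 (notMem_of_finite hU hle)
  have h5 := Filter.inter_mem (Filter.inter_mem h2 h3) h4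
  obtain ⟨n, ⟨hn1, hn2⟩, hn3⟩ := Ultrafilter.nonempty_of_mem h5
  have e1 : f n < g s n := hn1
  have e2 : g s n < G n := hn2
  have e3 : G n ≤ f n := by
    by_contra hh
    exact hn3 hh
  omega

/-- The characterization. -/
theorem polarized_iff {κ : Cardinal.{0}} (hκ : κ.ord.cof = dominatingNumber.ord.cof) {m : ℕ}
    (hm : 2 ≤ m) : Polarized κ m ↔ ultrafilterNumber < dominatingNumber := by
  constructor
  · intro h
    by_contra hcon
    exact not_polarized (not_lt.1 hcon) hκ hm h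
  · intro h
    exact polarized (by rw [hκ, cof_eq h]; exact h) m

end Pool.Agent.Y722.PD
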